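import Pool.Agent.W601.SQ.Stm

set_option autoImplicit false
open scoped Classical Cardinal
open Filter Topology

namespace Pool.Agent.W496.SQ

open Pool.Agent.W601.SQ

/-! # Project SQ, part GOOD: existence of a good matrix -/

noncomputable section

/-- the index set -/
abbrev Idx : Type :=
  ({s : ℕ → (ℝ →₀ ℤ) // Function.Injective s} × Set ℕ) ⊕ (Finset ℝ × (ℝ →₀ ℝ) × ℕ)

lemma mk_fin_int : #(ℝ →₀ ℤ) = 𝔠 := by
  rw [Cardinal.mk_finsupp_of_infinite, Cardinal.mk_real, Cardinal.mk_int]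
  exact max_eq_left Cardinal.aleph0_le_continuum

lemma mk_fin_real : #(ℝ →₀ ℝ) = 𝔠 := by
  rw [Cardinal.mk_finsupp_of_infinite, Cardinal.mk_real, max_self]

lemma mk_idx : #Idx ≤ 𝔠 := by
  have h1 : #{s : ℕ → (ℝ →₀ ℤ) // Function.Injective s} ≤ 𝔠 := by
    refine (Cardinal.mk_subtype_le _).trans ?_
    rw [← Cardinal.power_def, mk_fin_int, Cardinal.mk_nat, Cardinal.continuum_power_aleph0]
  have h2 : #(Set ℕ) = 𝔠 := by
    rw [Cardinal.mk_set, Cardinal.mk_nat, Cardinal.two_power_aleph0]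
  have h3 : #(Finset ℝ) = 𝔠 := by
    rw [Cardinal.mk_finset_of_infinite, Cardinal.mk_real]
  rw [Cardinal.mk_sum, Cardinal.lift_id, Cardinal.lift_id, Cardinal.mk_prod, Cardinal.lift_id,
    Cardinal.lift_id, Cardinal.mk_prod, Cardinal.lift_id, Cardinal.lift_id, Cardinal.mk_prod,
    Cardinal.lift_id, Cardinal.lift_id, h2, h3, mk_fin_real, Cardinal.mk_nat,
    Cardinal.continuum_mul_aleph0, Cardinal.continuum_mul_self]
  calc _ ≤ 𝔠 * 𝔠 + 𝔠 := by gcongr
    _ = 𝔠 := by rw [Cardinal.continuum_mul_self, Cardinal.continuum_add_self]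

theorem good : S_SUBS → S_MAT → S_GOOD := by
  intro hS hM
  choose φ hφ hYY using hS
  choose Z hZ1 hZ2 hZ3 using hYY
  let Y : Idx → ℝ → Set ℝ := fun i => match i with
    | Sum.inl p => Z p.1.1 p.1.2 p.2
    | Sum.inr q => fun β => if β ∈ q.1 then
        Set.Ioo (q.2.1 β - 1 / ((q.2.2 : ℝ) + 1)) (q.2.1 β + 1 / ((q.2.2 : ℝ) + 1)) else Set.univ
  obtain ⟨θ, h1, h2, h3, h4⟩ := hM Idx Y mk_idx (by
    rintro (p | q) β
    · exact hZ1 _ _ _ β
    · simp only [Y]
      split_ifs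
      · rw [Cardinal.mk_Ioo_real]
        have : (0 : ℝ) < 1 / ((q.2.2 : ℝ) + 1) := by positivity
        linarith
      · rw [Cardinal.mk_univ_real]) (by
    rintro (p | q)
    · exact hZ2 _ _ _
    · refine q.1.countable_toSet.mono ?_
      intro β hβ
      by_contra hcon
      apply hβ
      simp only [Y]
      exact if_neg (fun h => hcon (Finset.mem_coe.mpr h)))
  refine ⟨θ, ?_, h2, h3, h4, ?_⟩
  · intro s hs
    refine ⟨φ s hs, hφ s hs, fun J => ?_⟩
    obtain ⟨α, hα⟩ := h1 (Sum.inl (⟨s, hs⟩, J))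
    exact ⟨α, hZ3 s hs J (θ α) hα⟩
  · intro F t ε hε
    obtain ⟨n, hn⟩ := exists_nat_one_div_lt hε
    let t' : ℝ →₀ ℝ := Finsupp.onFinset F (fun β => if β ∈ F then t β else 0) (by
      intro β hβ
      by_contra hcon
      exact hβ (if_neg hcon))
    obtain ⟨α, hα⟩ := h1 (Sum.inr (F, t', n))
    refine ⟨α, fun β hβ => ?_⟩
    have h := hα β
    simp only [Y] at h
    rw [if_pos hβ] at h
    have ht : t' β = t β := by
      simp only [t', Finsupp.onFinset_apply]
      rw [if_pos hβ]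
    rw [ht] at h
    rw [abs_lt]
    constructor
    · linarith [h.1]
    · linarith [h.2]

end

end Pool.Agent.W496.SQ
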